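import Pool.Agent.Helper49.NF.Goals

set_option autoImplicit false

namespace Pool.Agent.Helper34.NF

open Finset
open Pool.Agent.Helper49.NF
open Pool.Agent.Helper47.SR (Grp mv lev wt Ew W IsInv up dn StarAt HalfStarAt)

lemma choose_succ_le_h34 (N b : ℕ) : N.choose (b + 1) ≤ N * N.choose b := by
  have h := Nat.choose_succ_right_eq N b
  calc N.choose (b + 1) ≤ N.choose (b + 1) * (b + 1) := Nat.le_mul_of_pos_right _ (Nat.succ_pos b)
    _ = N.choose b * (N - b) := h
    _ ≤ N.choose b * N := Nat.mul_le_mul_left _ (Nat.sub_le N b)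
    _ = N * N.choose b := mul_comm _ _

lemma ew_le_h34 {n : ℕ} (G : Grp n) (m : ℕ) : Ew G (lev n m) ≤ Nn G m 2 := by
  unfold Ew Nn
  rw [sum_filter]
  apply sum_le_sum
  intro A _
  by_cases h : 2 ≤ 1 + wt G A
  · rw [if_pos h]
    omega
  · rw [if_neg h]
    omega

theorem goal_NSB (hNS : Goal_NS) : Goal_NSB := by
  intro n K f G hG m hm1 hm2
  have key : ∀ s, 1 ≤ s → Nn G m s ≤ Bb n K f m s ∧ Nn G (m + 1) s ≤ Bb n K f m s := by
    intro s hs
    have hN : n / s ≤ n := Nat.div_le_self n s
    constructor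
    · have h1 := (hNS n K f G hG m s hs hm1 (by omega)).2 (by omega)
      refine h1.trans ?_
      unfold Bb
      have h2 : (n / s).choose (m / s) ≤ (n + 1) * (n / s).choose (m / s) :=
        Nat.le_mul_of_pos_left _ (Nat.succ_pos n)
      calc (K * n) ^ (s + 1) * (4 ^ f * ((n + 1) * (n / s).choose (m / s)))
          ≤ (K * n) ^ (s + 1) * (4 ^ f * ((n + 1) * ((n + 1) * (n / s).choose (m / s)))) := by
            gcongr
        _ = 4 ^ f * (K * n) ^ (s + 1) * (n + 1) ^ 2 * (n / s).choose (m / s) := by ring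
    · have h1 := (hNS n K f G hG (m + 1) s hs (by omega) (by omega)).2 hm2
      refine h1.trans ?_
      unfold Bb
      have h2 : (n / s).choose ((m + 1) / s) ≤ (n + 1) * (n / s).choose (m / s) := by
        rw [Nat.succ_div]
        split_ifs with hd
        · calc (n / s).choose (m / s + 1) ≤ (n / s) * (n / s).choose (m / s) :=
                choose_succ_le_h34 _ _
            _ ≤ (n + 1) * (n / s).choose (m / s) := by
                apply Nat.mul_le_mul_right
                omega
        · exact Nat.le_mul_of_pos_left _ (Nat.succ_pos n)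
      calc (K * n) ^ (s + 1) * (4 ^ f * ((n + 1) * (n / s).choose ((m + 1) / s)))
          ≤ (K * n) ^ (s + 1) * (4 ^ f * ((n + 1) * ((n + 1) * (n / s).choose (m / s)))) := by
            gcongr
        _ = 4 ^ f * (K * n) ^ (s + 1) * (n + 1) ^ 2 * (n / s).choose (m / s) := by ring
  refine ⟨key, ?_, ?_⟩
  · exact (ew_le_h34 G m).trans (key 2 (by norm_num)).1
  · exact (ew_le_h34 G (m + 1)).trans (key 2 (by norm_num)).2

end Pool.Agent.Helper34.NF
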